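import Pool.Agent.W670.TL.Defs

/-!
Part CNV of project TL: the converse.
-/

set_option autoImplicit false

open NumberField

namespace Pool.Agent.W62.TL.CNV

open Pool.Agent.W670.TL

theorem one_le_D (K : Type) [Field K] [NumberField K] : 1 ≤ D K := by
  unfold D
  have h1 : discr K ≠ 0 := NumberField.discr_ne_zero K
  have h2 : (1 : ℤ) ≤ |discr K| := Int.one_le_abs h1
  exact_mod_cast h2

theorem cnv (h1 : S_HER) : S_CNV := by
  intro N ℓ hTC δ hδ
  obtain ⟨C, hC⟩ := hTC (δ / 2) (by positivity)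
  set R : ℝ := (max C 1) ^ (2 / δ) with hR
  have hfin := h1 R
  refine ⟨(({M : IntermediateField ℚ (AlgebraicClosure ℚ) |
    ∃ _ : NumberField M, D M ≤ R}.ncard : ℕ) : ℝ), ?_⟩
  intro Y _
  rw [Real.rpow_zero, mul_one]
  have hsub : exc N ℓ (0 + δ) Y ⊆ {M : IntermediateField ℚ (AlgebraicClosure ℚ) |
      ∃ _ : NumberField M, D M ≤ R} := by
    rintro M ⟨hM, hNF, -, hlt⟩
    refine ⟨hNF, ?_⟩
    have hD := one_le_D M
    have hD0 : 0 < D M := by linarith
    have h2 := hC M hM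
    have h3 : D M ^ (0 + δ) = D M ^ (δ / 2) * D M ^ (δ / 2) := by
      rw [← Real.rpow_add hD0]
      congr 1
      ring
    rw [h3] at hlt
    rw [zero_add] at h2
    have h4 : 0 < D M ^ (δ / 2) := Real.rpow_pos_of_pos hD0 _
    have h5 : D M ^ (δ / 2) < C := by
      have h6 : D M ^ (δ / 2) * D M ^ (δ / 2) < C * D M ^ (δ / 2) := lt_of_lt_of_le hlt h2
      exact lt_of_mul_lt_mul_right h6 h4.le
    have h7 : D M ^ (δ / 2) ≤ max C 1 := h5.le.trans (le_max_left _ _)
    have h8 : (D M ^ (δ / 2)) ^ (2 / δ) ≤ R := by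
      rw [hR]
      exact Real.rpow_le_rpow h4.le h7 (by positivity)
    rw [← Real.rpow_mul hD0.le] at h8
    have h9 : δ / 2 * (2 / δ) = 1 := by field_simp
    rw [h9, Real.rpow_one] at h8
    exact h8
  exact_mod_cast Set.ncard_le_ncard hsub hfin

end Pool.Agent.W62.TL.CNV
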